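import Mathlib

set_option autoImplicit false
open Set Filter Topology

namespace Pool.Agent.Results.MP_99bf3a_gt.NotK

abbrev I : Type := Set ℝ

def G : AddSubgroup (I → ZMod 2) where
  carrier := {x | ∃ c, {i | x i ≠ c}.Countable}
  zero_mem' := ⟨0, by simp⟩
  add_mem' := by
    rintro x y ⟨c, hc⟩ ⟨d, hd⟩
    refine ⟨c + d, (hc.union hd).mono fun i hi => ?_⟩
    by_contra h
    simp only [mem_union, mem_setOf_eq, not_or, not_not] at h
    exact hi (by simp [h.1, h.2])
  neg_mem' := by
    rintro x ⟨c, hc⟩
    refine ⟨-c, hc.mono fun i hi => ?_⟩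
    simpa using hi

lemma cpt (A : Set I) (hA : A.Countable) : IsCompact {x : G | ∃ c, ∀ i ∉ A, x.1 i = c} := by
  rw [Subtype.isCompact_iff]
  have : Subtype.val '' {x : G | ∃ c, ∀ i ∉ A, x.1 i = c} = ⋃ c, ⋂ i ∈ Aᶜ, {x : I → ZMod 2 | x i = c} := by
    ext x
    simp only [mem_image, mem_setOf_eq, mem_iUnion, mem_iInter, mem_compl_iff]
    exact ⟨fun ⟨y, ⟨c, h⟩, e⟩ => ⟨c, e ▸ h⟩, fun ⟨c, h⟩ =>
      ⟨⟨x, c, hA.mono fun i hi => by_contra fun h' => hi (h i h')⟩, ⟨c, h⟩, rfl⟩⟩
  rw [this]
  exact (isClosed_iUnion_of_finite fun c => isClosed_biInter fun i _ =>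
    isClosed_eq (continuous_apply i) continuous_const).isCompact

universe u

theorem result : ∃ (G : Type) (_ : AddCommGroup G) (_ : TopologicalSpace G),
    IsTopologicalAddGroup G ∧ T35Space G ∧
    (∀ (ι : Type u) (F : ι → Set G), (∀ a, IsClosed (F a)) →
      (∀ K, IsCompact K → {a | (F a ∩ K).Nonempty}.Finite) → LocallyFinite F) ∧
    ¬ ∀ C : Set G, (∀ K, IsCompact K → IsClosed (Subtype.val ⁻¹' C : Set K)) → IsClosed C := by
  classical
  refine ⟨G, inferInstance, inferInstance, inferInstance, inferInstance, fun ι F _ h x => ?_, fun h => ?_⟩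
  · refine ⟨univ, univ_mem, ?_⟩
    by_contra hi
    obtain ⟨S, S1, S3, S2⟩ := Set.Infinite.exists_subset_countable_infinite hi
    choose! y y1 y2 using fun a (ha : a ∈ S) => S1 ha
    choose c hc using fun a => (y a).2
    refine S2 ((h _ (cpt _ (S3.biUnion fun a _ => hc a))).subset fun a ha => ⟨y a, y1 a ha, c a, fun i hi => ?_⟩)
    by_contra h'
    exact hi (mem_biUnion ha h')
  · let C : Set G := {x | {i | x.1 i ≠ 0}.Countable}
    have unc : ∀ U : Set I, Cardinal.mk U ≤ Cardinal.continuum → ¬ Uᶜ.Countable := fun U hU hc => by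
      have h1 := (Cardinal.mk_union_le U Uᶜ).trans (add_le_add hU
        ((Cardinal.le_aleph0_iff_set_countable.2 hc).trans Cardinal.aleph0_le_continuum))
      rw [union_compl_self, Cardinal.mk_univ, Cardinal.mk_set, Cardinal.mk_real,
        Cardinal.continuum_add_self] at h1
      exact (Cardinal.cantor _).not_ge h1
    have hC : IsClosed C := h C fun K hK => by
      refine isClosed_of_closure_subset fun z hz => ?_
      by_contra hz'
      obtain ⟨T, T1, T2⟩ : ∃ T ⊆ {i | z.1.1 i ≠ 0}, Cardinal.mk T = Cardinal.aleph 1 :=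
        Cardinal.le_mk_iff_exists_subset.1 (by
          rw [← Cardinal.succ_aleph0, Order.succ_le_iff, ← not_le, Cardinal.le_aleph0_iff_set_countable]
          exact hz')
      have : ∀ s : Finset T, ∃ w : K, w.1 ∈ C ∧ ∀ i ∈ s, w.1.1 i ≠ 0 := fun s => by
        obtain ⟨w, w1, w2⟩ := mem_closure_iff.1 hz (⋂ i ∈ s, {w : K | w.1.1 i ≠ 0})
          (isOpen_biInter_finset fun i _ => isOpen_ne_fun ((continuous_apply (i : I)).comp
            (continuous_subtype_val.comp continuous_subtype_val)) continuous_const)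
          (mem_iInter₂.2 fun i _ => T1 i.2)
        exact ⟨w, w2, mem_iInter₂.1 w1⟩
      choose w w1 w2 using this
      haveI := isCompact_iff_compactSpace.1 hK
      obtain ⟨v, hv⟩ := exists_clusterPt_of_compactSpace (map w atTop)
      have key : ∀ (i : I) (P : Set (ZMod 2)), (∀ᶠ s in atTop, (w s).1.1 i ∈ P) → v.1.1 i ∈ P :=
        fun i P hP => by
          have hc : IsClosed {u : K | u.1.1 i ∈ P} := (isClosed_discrete P).preimage
            ((continuous_apply i).comp (continuous_subtype_val.comp continuous_subtype_val))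
          exact hc.closure_subset (mem_closure_iff_clusterPt.2 (hv.mono (le_principal_iff.2 hP)))
      obtain ⟨c, hc⟩ := v.1.2
      have hT : ¬ T.Countable := by
        rw [← Cardinal.le_aleph0_iff_set_countable, T2, not_le]; exact Cardinal.aleph0_lt_aleph_one
      haveI : Infinite T := by
        rw [infinite_coe_iff]; exact fun h => hT h.countable
      by_cases h0 : c = 0
      · refine hT (hc.mono fun i hi => ?_)
        rw [h0]
        exact key i {0}ᶜ ((eventually_ge_atTop {⟨i, hi⟩}).mono fun s hs =>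
          w2 s ⟨i, hi⟩ (hs (Finset.mem_singleton_self _)))
      · refine unc (⋃ s, {i | (w s).1.1 i ≠ 0}) ?_ (hc.mono fun i hi => ?_)
        · refine (Cardinal.mk_iUnion_le _).trans ?_
          rw [Cardinal.mk_finset_of_infinite, T2, ← Cardinal.continuum_mul_aleph0]
          exact mul_le_mul' Cardinal.aleph_one_le_continuum
            (ciSup_le' fun s => Cardinal.le_aleph0_iff_set_countable.2 (w1 s))
        · have : v.1.1 i ∈ ({0} : Set _) := key i {0} (Eventually.of_forall fun s => by
            by_contra h'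
            exact hi (mem_iUnion.2 ⟨s, h'⟩))
          exact fun h' => h0 (h'.symm.trans this)
    let o : G := ⟨fun _ => 1, 1, by simp⟩
    have ho : o ∈ C := by
      refine hC.mem_of_tendsto (f := fun s : Finset I => (⟨fun i => if i ∈ s then 1 else 0, 0,
        s.countable_toSet.mono fun i hi => by simpa using hi⟩ : G)) (b := atTop) ?_
        (Eventually.of_forall fun s => s.countable_toSet.mono fun i hi => by simpa using hi)
      refine tendsto_subtype_rng.2 (tendsto_pi_nhds.2 fun i => tendsto_const_nhds.congr' ?_)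
      exact (eventually_ge_atTop {i}).mono fun s hs => by simp [o, hs (Finset.mem_singleton_self _)]
    exact unc ∅ (by simp) (ho.mono fun i _ => by simp [o])

end Pool.Agent.Results.MP_99bf3a_gt.NotK
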